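import Mathlib

/-!
# Locally conformally product (LCP) manifolds

Definitions for LCP manifolds `M = (ℝ^q × N) / Γ` whose non-flat factor `N` is the manifold `ℝ^m`
with a smooth Riemannian metric.
-/

set_option autoImplicit false

open scoped ContDiff Topology RealInnerProductSpace
open Set Filter

noncomputable section

namespace Pool.Agent.R768.LCP

/-- The manifold `ℝ^m`. -/
abbrev V (m : ℕ) : Type := EuclideanSpace ℝ (Fin m)

variable {m n q : ℕ}

/-- The function `f` is smooth. -/
def SmoothFun (f : V m → ℝ) : Prop := ContDiff ℝ ∞ f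

/-- The map `f` is smooth. -/
def SmoothMap (f : V m → V n) : Prop := ContDiff ℝ ∞ f

/-- The curve `c` is smooth. -/
def SmoothCurve (c : ℝ → V m) : Prop := ContDiff ℝ ∞ c

/-- The derivative of the function `f` at `x` in the direction `u`. -/
def dir (f : V m → ℝ) (x u : V m) : ℝ := fderiv ℝ f x u

/-- The differential of the map `f` at `x`, applied to the vector `u`. -/
def dmap (f : V m → V n) (x u : V m) : V n := fderiv ℝ f x u

/-- The velocity of the curve `c` at time `t`. -/
def vel (c : ℝ → V m) (t : ℝ) : V m := deriv c t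

/-- The Euclidean inner product. -/
def dot (v w : V m) : ℝ := ⟪v, w⟫

/-- A smooth Riemannian metric on the manifold `ℝ^m`; `g x v w` is the inner product of the tangent
vectors `v`, `w` at the point `x`. -/
structure RMetric (m : ℕ) where
  /-- the metric tensor -/
  g : V m → V m → V m → ℝ
  smooth : ∀ v w, SmoothFun (fun x => g x v w)
  add : ∀ x u v w, g x (u + v) w = g x u w + g x v w
  smul : ∀ x (c : ℝ) v w, g x (c • v) w = c * g x v w
  symm : ∀ x v w, g x v w = g x w v
  pos : ∀ x v, v ≠ 0 → 0 < g x v v

/-- The Euclidean metric of `ℝ^q`. -/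
def euclid (q : ℕ) : RMetric q where
  g := fun _ v w => dot v w
  smooth := fun _ _ => contDiff_const
  add := fun _ u v w => inner_add_left u v w
  smul := fun _ c v w => real_inner_smul_left v w c
  symm := fun _ v w => real_inner_comm w v
  pos := fun _ _ hv => real_inner_self_pos.2 hv

namespace RMetric

variable (h : RMetric m)

/-- The Christoffel symbols of the first kind: `g (∇_u v, w)` at the point `x`, for the Levi-Civita
connection `∇` and the constant vector fields `u`, `v`, `w` (Koszul formula). -/
def christoffel (x u v w : V m) : ℝ :=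
  (dir (fun y => h.g y v w) x u + dir (fun y => h.g y u w) x v - dir (fun y => h.g y u v) x w) / 2

/-- `X` is a parallel vector field along the smooth curve `c`: `X' + ∇_{c'} X = 0` for the
Levi-Civita connection `∇`. -/
def IsParallel (c X : ℝ → V m) : Prop :=
  SmoothCurve c ∧ SmoothCurve X ∧
    ∀ t w, h.g (c t) (vel X t) w + h.christoffel (c t) (vel c t) (X t) w = 0

/-- `Transport p v q w`: the vector `w` at `q` is the parallel transport of the vector `v` at `p`
along some piecewise smooth curve from `p` to `q`. -/
inductive Transport : V m → V m → V m → V m → Prop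
  /-- parallel transport along a smooth curve `c`, from time `0` to time `1` -/
  | curve (c X : ℝ → V m) : h.IsParallel c X → Transport (c 0) (X 0) (c 1) (X 1)
  /-- concatenation of curves -/
  | trans (p v q w r z : V m) : Transport p v q w → Transport q w r z → Transport p v r z

/-- The holonomy representation at every point `p` is irreducible: a linear subspace of the tangent
space at `p` which is invariant under parallel transport along all piecewise smooth loops at `p` is
zero or the whole tangent space. -/
def IrreducibleHolonomy : Prop :=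
  ∀ (p : V m) (F : Submodule ℝ (V m)), (∀ v ∈ F, ∀ w, h.Transport p v p w → w ∈ F) →
    F = ⊥ ∨ F = ⊤

/-- The metric is flat: it is locally isometric to the Euclidean metric. -/
def IsFlat : Prop :=
  ∀ x : V m, ∃ U : Set (V m), IsOpen U ∧ x ∈ U ∧ ∃ φ : V m → V m, ContDiffOn ℝ ∞ φ U ∧
    ∀ y ∈ U, ∀ v w : V m, h.g y v w = dot (dmap φ y v) (dmap φ y w)

/-- The length of the curve `c` on the interval `[0, 1]`. -/
def length (c : ℝ → V m) : ℝ := ∫ t in (0 : ℝ)..1, √(h.g (c t) (vel c t) (vel c t))

/-- The Riemannian distance: the infimum of the lengths of the smooth curves from `x` to `y`. -/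
def rdist (x y : V m) : ℝ := sInf {l | ∃ c : ℝ → V m, SmoothCurve c ∧ c 0 = x ∧ c 1 = y ∧
  l = h.length c}

/-- The metric is complete: every Cauchy sequence for the Riemannian distance converges. -/
def IsComplete : Prop :=
  ∀ s : ℕ → V m, (∀ ε > 0, ∃ n, ∀ i ≥ n, ∀ j ≥ n, h.rdist (s i) (s j) < ε) →
    ∃ x, Tendsto s atTop (𝓝 x)

/-- `f` is a similarity of ratio `c` of the Riemannian manifold `(ℝ^m, g)`: a diffeomorphism with
`f^* g = c ^ 2 g`. -/
def IsSimilarity (c : ℝ) (f : V m ≃ₜ V m) : Prop :=
  SmoothMap f ∧ SmoothMap f.symm ∧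
    ∀ x v w, h.g (f x) (dmap f x v) (dmap f x w) = c ^ 2 * h.g x v w

end RMetric

/-- The group of pairs of homeomorphisms of `ℝ^q` and of `ℝ^m`. -/
abbrev Pairs (q m : ℕ) : Type := (V q ≃ₜ V q) × (V m ≃ₜ V m)

/-- The action of a pair on `ℝ^q × ℝ^m`. -/
def act (γ : Pairs q m) (p : V q × V m) : V q × V m := (γ.1 p.1, γ.2 p.2)

/-- `Γ` acts freely. -/
def ActsFreely (Γ : Subgroup (Pairs q m)) : Prop :=
  ∀ γ ∈ Γ, ∀ p, act γ p = p → γ = 1

/-- `Γ` acts properly discontinuously. -/
def ActsProperlyDiscontinuously (Γ : Subgroup (Pairs q m)) : Prop :=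
  ∀ K : Set (V q × V m), IsCompact K → {γ | γ ∈ Γ ∧ ∃ p ∈ K, act γ p ∈ K}.Finite

/-- `Γ` acts cocompactly. -/
def ActsCocompactly (Γ : Subgroup (Pairs q m)) : Prop :=
  ∃ K : Set (V q × V m), IsCompact K ∧ ∀ p, ∃ γ ∈ Γ, act γ p ∈ K

/-- All elements of `Γ` are pairs of similarities, of the Euclidean space `ℝ^q` and of `(ℝ^m, h)`,
with the same ratio: similarities of the Riemannian product. -/
def ActsBySimilarities (h : RMetric m) (Γ : Subgroup (Pairs q m)) : Prop :=
  ∀ γ ∈ Γ, ∃ c : ℝ, 0 < c ∧ (euclid q).IsSimilarity c γ.1 ∧ h.IsSimilarity c γ.2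

/-- Some element of `Γ` is a similarity with ratio different from `1`. -/
def NotIsometric (h : RMetric m) (Γ : Subgroup (Pairs q m)) : Prop :=
  ∃ γ ∈ Γ, ∃ c : ℝ, 0 < c ∧ c ≠ 1 ∧ h.IsSimilarity c γ.2

/-- An LCP manifold with non-flat factor `N = (ℝ^m, g_N)`.

The data are a Riemannian metric `h = g_N` on `ℝ^m`, non-flat, non-complete and with irreducible
holonomy, and a group `Γ` (the fundamental group) of pairs `γ = (γ_E, γ_N)` of a similarity `γ_E` of
the Euclidean space `ℝ^q`, `q ≥ 1`, and a similarity `γ_N` of `N` with the same ratio, which acts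
freely, properly discontinuously and cocompactly on the Riemannian product `ℝ^q × N` and does not
act by isometries. The quotient `M = (ℝ^q × N) / Γ` is a compact manifold with universal cover
`ℝ^q × N`, and the Levi-Civita connection of the product metric descends to a closed non-exact Weyl
structure `D` on `M` (for the conformal class of the product metric), with `h_D` the product
metric. -/
structure LCPManifold (q m : ℕ) where
  q_pos : 1 ≤ q
  /-- the metric `g_N` of `N = ℝ^m` -/
  h : RMetric m
  not_flat : ¬ h.IsFlat
  not_complete : ¬ h.IsComplete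
  irreducible : h.IrreducibleHolonomy
  /-- the fundamental group -/
  Γ : Subgroup (Pairs q m)
  similarities : ActsBySimilarities h Γ
  free : ActsFreely Γ
  properlyDiscontinuous : ActsProperlyDiscontinuously Γ
  cocompact : ActsCocompactly Γ
  nonexact : NotIsometric h Γ

/-- A homeomorphism of `ℝ^m`, as an element of the space of continuous maps, which carries the
compact-open topology. -/
def toMap (f : V m ≃ₜ V m) : C(V m, V m) := f

namespace LCPManifold

variable (L : LCPManifold q m)

/-- The group `P = {γ_N : γ ∈ Γ}`. -/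
def P : Subgroup (V m ≃ₜ V m) := L.Γ.map (MonoidHom.snd _ _)

/-- The similarity group `Sim(N)`, as a set. -/
def Sim : Set (V m ≃ₜ V m) := {f | ∃ c : ℝ, 0 < c ∧ L.h.IsSimilarity c f}

/-- The closure of `P` in `Sim(N)` for the compact-open topology. -/
def Pbar : Set (V m ≃ₜ V m) :=
  {f | f ∈ L.Sim ∧ toMap f ∈ closure {u | ∃ p ∈ L.P, u = toMap p}}

end LCPManifold

end Pool.Agent.R768.LCP
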