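import Pool.Agent.R768.LCP.Defs

/-!
# The metric `e^{4r} dy² + e^{2r} (dr² + dw²)` on `ℝ^3`
-/

set_option autoImplicit false

open scoped ContDiff Topology RealInnerProductSpace
open Set Filter Real

noncomputable section

namespace Pool.Agent.R768.LCP

/-- coordinates -/
abbrev pr (i : Fin 3) : V 3 →L[ℝ] ℝ := EuclideanSpace.proj i

theorem hasFDerivAt_pr (i : Fin 3) (x : V 3) : HasFDerivAt (fun x : V 3 => x i) (pr i) x :=
  (pr i).hasFDerivAt

theorem hasFDerivAt_exp (a : ℝ) (x : V 3) :
    HasFDerivAt (fun x : V 3 => exp (a * x 1)) ((exp (a * x 1) * a) • pr 1) x := by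
  have h1 : HasFDerivAt (fun x : V 3 => a * x 1) (a • pr 1) x := (hasFDerivAt_pr 1 x).const_mul a
  have h2 := h1.exp
  rw [smul_smul] at h2
  exact h2

theorem contDiff_pr (i : Fin 3) : ContDiff ℝ ∞ (fun x : V 3 => x i) := (pr i).contDiff

/-- the metric tensor -/
def gN (x v w : V 3) : ℝ :=
  exp (4 * x 1) * (v 0 * w 0) + exp (2 * x 1) * (v 1 * w 1 + v 2 * w 2)

theorem gN_apply (x v w : V 3) :
    gN x v w = exp (4 * x 1) * (v 0 * w 0) + exp (2 * x 1) * (v 1 * w 1 + v 2 * w 2) := rfl

theorem contDiff_gN (v w : V 3) : ContDiff ℝ ∞ (fun x => gN x v w) := by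
  have h1 : ∀ a : ℝ, ContDiff ℝ ∞ (fun x : V 3 => exp (a * x 1)) := fun a =>
    (contDiff_const.mul (contDiff_pr 1)).exp
  exact ((h1 4).mul contDiff_const).add ((h1 2).mul contDiff_const)

theorem dir_gN (x u v w : V 3) : dir (fun y => gN y v w) x u =
    4 * exp (4 * x 1) * u 1 * (v 0 * w 0) + 2 * exp (2 * x 1) * u 1 * (v 1 * w 1 + v 2 * w 2) := by
  have h := ((hasFDerivAt_exp 4 x).mul_const (v 0 * w 0)).add
    ((hasFDerivAt_exp 2 x).mul_const (v 1 * w 1 + v 2 * w 2))
  have h2 : HasFDerivAt (fun y => gN y v w) _ x := h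
  unfold dir
  rw [h2.fderiv]
  simp only [add_apply, smul_apply, smul_eq_mul]
  have h3 : (pr 1) u = u 1 := rfl
  rw [h3]
  ring

/-- the metric on `ℝ^3` -/
def hN : RMetric 3 where
  g := gN
  smooth := contDiff_gN
  add := fun x u v w => by simp only [gN_apply, PiLp.add_apply]; ring
  smul := fun x c v w => by simp only [gN_apply, PiLp.smul_apply, smul_eq_mul]; ring
  symm := fun x v w => by rw [gN_apply, gN_apply]; ring
  pos := fun x v hv => by
    rw [gN_apply]
    have h4 := exp_pos (4 * x 1)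
    have h2 := exp_pos (2 * x 1)
    have hne : v 0 ≠ 0 ∨ v 1 ≠ 0 ∨ v 2 ≠ 0 := by
      by_contra hcon
      push Not at hcon
      apply hv
      ext i
      fin_cases i
      · exact hcon.1
      · exact hcon.2.1
      · exact hcon.2.2
    rcases hne with h | h | h
    · have : 0 < v 0 * v 0 := mul_self_pos.2 h
      have := mul_self_nonneg (v 1)
      have := mul_self_nonneg (v 2)
      positivity
    · have : 0 < v 1 * v 1 := mul_self_pos.2 h
      have := mul_self_nonneg (v 0)
      have := mul_self_nonneg (v 2)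
      positivity
    · have : 0 < v 2 * v 2 := mul_self_pos.2 h
      have := mul_self_nonneg (v 0)
      have := mul_self_nonneg (v 1)
      positivity

theorem christoffel_hN (x u v w : V 3) : hN.christoffel x u v w =
    2 * exp (4 * x 1) * (u 1 * v 0 * w 0 + v 1 * u 0 * w 0 - w 1 * u 0 * v 0) +
      exp (2 * x 1) * (u 1 * v 1 * w 1 + u 1 * v 2 * w 2 + v 1 * u 2 * w 2 - w 1 * u 2 * v 2) := by
  unfold RMetric.christoffel
  have : hN.g = gN := rfl
  rw [this, dir_gN, dir_gN, dir_gN]
  ring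

/-- a vector of `ℝ^3` -/
def vec (a b c : ℝ) : V 3 := !₂[a, b, c]

@[simp] theorem vec_zero (a b c : ℝ) : vec a b c 0 = a := rfl
@[simp] theorem vec_one (a b c : ℝ) : vec a b c 1 = b := rfl
@[simp] theorem vec_two (a b c : ℝ) : vec a b c 2 = c := rfl

theorem eq_vec (v : V 3) : v = vec (v 0) (v 1) (v 2) := by
  ext i
  fin_cases i <;> rfl

theorem vec_ext {v w : V 3} (h0 : v 0 = w 0) (h1 : v 1 = w 1) (h2 : v 2 = w 2) : v = w := by
  ext i
  fin_cases i
  · exact h0
  · exact h1
  · exact h2

theorem contDiff_vec {f g k : ℝ → ℝ} (hf : ContDiff ℝ ∞ f) (hg : ContDiff ℝ ∞ g)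
    (hk : ContDiff ℝ ∞ k) : ContDiff ℝ ∞ (fun t => vec (f t) (g t) (k t)) := by
  rw [contDiff_euclidean]
  intro i
  fin_cases i
  · exact hf
  · exact hg
  · exact hk

theorem vec_decomp (a b c : ℝ) :
    vec a b c = a • vec 1 0 0 + b • vec 0 1 0 + c • vec 0 0 1 := by
  apply vec_ext <;> simp

theorem hasDerivAt_vec {f g k : ℝ → ℝ} {f' g' k' t : ℝ} (hf : HasDerivAt f f' t)
    (hg : HasDerivAt g g' t) (hk : HasDerivAt k k' t) :
    HasDerivAt (fun t => vec (f t) (g t) (k t)) (vec f' g' k') t := by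
  have h : (fun t => vec (f t) (g t) (k t)) =
      fun t => f t • vec 1 0 0 + g t • vec 0 1 0 + k t • vec 0 0 1 := by
    funext t
    exact vec_decomp _ _ _
  rw [h, vec_decomp f' g' k']
  exact ((hf.smul_const _).add (hg.smul_const _)).add (hk.smul_const _)

/-- A criterion for parallel fields in coordinates. -/
theorem isParallel_of {c0 c1 c2 X0 X1 X2 c0' c1' c2' X0' X1' X2' : ℝ → ℝ}
    (hc0 : ContDiff ℝ ∞ c0) (hc1 : ContDiff ℝ ∞ c1) (hc2 : ContDiff ℝ ∞ c2)
    (hX0 : ContDiff ℝ ∞ X0) (hX1 : ContDiff ℝ ∞ X1) (hX2 : ContDiff ℝ ∞ X2)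
    (dc0 : ∀ t, HasDerivAt c0 (c0' t) t) (dc1 : ∀ t, HasDerivAt c1 (c1' t) t)
    (dc2 : ∀ t, HasDerivAt c2 (c2' t) t) (dX0 : ∀ t, HasDerivAt X0 (X0' t) t)
    (dX1 : ∀ t, HasDerivAt X1 (X1' t) t) (dX2 : ∀ t, HasDerivAt X2 (X2' t) t)
    (e0 : ∀ t, X0' t = -2 * (c1' t * X0 t + c0' t * X1 t))
    (e1 : ∀ t, X1' t = 2 * exp (2 * c1 t) * c0' t * X0 t - c1' t * X1 t + c2' t * X2 t)
    (e2 : ∀ t, X2' t = -(c1' t * X2 t + c2' t * X1 t)) :
    hN.IsParallel (fun t => vec (c0 t) (c1 t) (c2 t)) (fun t => vec (X0 t) (X1 t) (X2 t)) := by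
  refine ⟨contDiff_vec hc0 hc1 hc2, contDiff_vec hX0 hX1 hX2, fun t w => ?_⟩
  unfold vel
  rw [(hasDerivAt_vec (dc0 t) (dc1 t) (dc2 t)).deriv, (hasDerivAt_vec (dX0 t) (dX1 t) (dX2 t)).deriv,
    christoffel_hN]
  have : hN.g = gN := rfl
  rw [this, gN_apply]
  simp only [vec_zero, vec_one, vec_two]
  rw [e0, e1, e2]
  have h4 : exp (4 * c1 t) = exp (2 * c1 t) * exp (2 * c1 t) := by rw [← exp_add]; ring_nf
  rw [h4]
  ring

/-- the vector with coefficients `A`, `B`, `C` in the orthonormal frame at height `r` -/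
def fr (r A B C : ℝ) : V 3 := vec (A * exp (-(2 * r))) (B * exp (-r)) (C * exp (-r))

theorem transport_r (y r w ρ A B C : ℝ) :
    hN.Transport (vec y r w) (fr r A B C) (vec y (r + ρ) w) (fr (r + ρ) A B C) := by
  have h : hN.IsParallel (fun t => vec y (r + ρ * t) w)
      (fun t => vec (A * exp (-(2 * (r + ρ * t)))) (B * exp (-(r + ρ * t)))
        (C * exp (-(r + ρ * t)))) := by
    have hl : ∀ t : ℝ, HasDerivAt (fun t : ℝ => r + ρ * t) ρ t := fun t => by
      simpa using ((hasDerivAt_id t).const_mul ρ).const_add r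
    refine isParallel_of (c0' := fun _ => 0) (c1' := fun _ => ρ) (c2' := fun _ => 0)
      (X0' := fun t => A * (exp (-(2 * (r + ρ * t))) * (-(2 * ρ))))
      (X1' := fun t => B * (exp (-(r + ρ * t)) * (-ρ)))
      (X2' := fun t => C * (exp (-(r + ρ * t)) * (-ρ)))
      contDiff_const (by fun_prop) contDiff_const (by fun_prop) (by fun_prop) (by fun_prop)
      (fun t => hasDerivAt_const t _) hl (fun t => hasDerivAt_const t _)
      (fun t => ((((hl t).const_mul 2).neg).exp).const_mul A)
      (fun t => (((hl t).neg).exp).const_mul B)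
      (fun t => (((hl t).neg).exp).const_mul C) ?_ ?_ ?_
    · intro t; ring
    · intro t; ring
    · intro t; ring
  have h2 := RMetric.Transport.curve _ _ h
  simpa [fr] using h2

theorem transport_y (y r w σ A B C : ℝ) :
    hN.Transport (vec y r w) (fr r A B C) (vec (y + σ) r w)
      (fr r (A * cos (2 * σ * exp r) - B * sin (2 * σ * exp r))
        (A * sin (2 * σ * exp r) + B * cos (2 * σ * exp r)) C) := by
  set θ := 2 * σ * exp r with hθ
  have h : hN.IsParallel (fun t => vec (y + σ * t) r w)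
      (fun t => vec ((A * cos (θ * t) - B * sin (θ * t)) * exp (-(2 * r)))
        ((A * sin (θ * t) + B * cos (θ * t)) * exp (-r)) (C * exp (-r))) := by
    have hl : ∀ a b t : ℝ, HasDerivAt (fun t : ℝ => a + b * t) b t := fun a b t => by
      simpa using ((hasDerivAt_id t).const_mul b).const_add a
    have hm : ∀ t : ℝ, HasDerivAt (fun t : ℝ => θ * t) θ t := fun t => by
      simpa using ((hasDerivAt_id t).const_mul θ)
    have e1 : exp (-(2 * r)) = exp (-r) * exp (-r) := by rw [← exp_add]; ring_nf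
    have e2 : exp r * exp (-r) = 1 := by rw [← exp_add]; simp
    have e3 : exp (2 * r) = exp r * exp r := by rw [← exp_add]; ring_nf
    refine isParallel_of (c0' := fun _ => σ) (c1' := fun _ => 0) (c2' := fun _ => 0)
      (X0' := fun t => (A * (-sin (θ * t) * θ) - B * (cos (θ * t) * θ)) * exp (-(2 * r)))
      (X1' := fun t => (A * (cos (θ * t) * θ) + B * (-sin (θ * t) * θ)) * exp (-r))
      (X2' := fun _ => 0)
      (by fun_prop) contDiff_const contDiff_const (by fun_prop) (by fun_prop) contDiff_const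
      (hl y σ) (fun t => hasDerivAt_const t _) (fun t => hasDerivAt_const t _)
      (fun t => ((((hm t).cos).const_mul A).sub (((hm t).sin).const_mul B)).mul_const _)
      (fun t => ((((hm t).sin).const_mul A).add (((hm t).cos).const_mul B)).mul_const _)
      (fun t => hasDerivAt_const t _) ?_ ?_ ?_
    · intro t
      rw [e1, hθ]
      linear_combination (-(A * sin (2 * σ * exp r * t) + B * cos (2 * σ * exp r * t)) * 2 * σ *
        exp (-r)) * e2
    · intro t
      rw [e1, e3, hθ]
      linear_combination ((A * cos (2 * σ * exp r * t) - B * sin (2 * σ * exp r * t)) * 2 * σ) *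
        (e2 - (exp r * exp (-r) + 1) * e2)
    · intro t; ring
  have h2 := RMetric.Transport.curve _ _ h
  simpa [fr] using h2

theorem transport_w (y r w φ A B C : ℝ) :
    hN.Transport (vec y r w) (fr r A B C) (vec y r (w + φ))
      (fr r A (B * cos φ + C * sin φ) (C * cos φ - B * sin φ)) := by
  have h : hN.IsParallel (fun t => vec y r (w + φ * t))
      (fun t => vec (A * exp (-(2 * r)))
        ((B * cos (φ * t) + C * sin (φ * t)) * exp (-r))
        ((C * cos (φ * t) - B * sin (φ * t)) * exp (-r))) := by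
    have hl : ∀ a b t : ℝ, HasDerivAt (fun t : ℝ => a + b * t) b t := fun a b t => by
      simpa using ((hasDerivAt_id t).const_mul b).const_add a
    have hm : ∀ t : ℝ, HasDerivAt (fun t : ℝ => φ * t) φ t := fun t => by
      simpa using ((hasDerivAt_id t).const_mul φ)
    refine isParallel_of (c0' := fun _ => 0) (c1' := fun _ => 0) (c2' := fun _ => φ)
      (X0' := fun t => 0)
      (X1' := fun t => (B * (-sin (φ * t) * φ) + C * (cos (φ * t) * φ)) * exp (-r))
      (X2' := fun t => (C * (-sin (φ * t) * φ) - B * (cos (φ * t) * φ)) * exp (-r))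
      contDiff_const contDiff_const (by fun_prop) contDiff_const (by fun_prop) (by fun_prop)
      (fun t => hasDerivAt_const t _) (fun t => hasDerivAt_const t _) (hl w φ)
      (fun t => hasDerivAt_const t _)
      (fun t => ((((hm t).cos).const_mul B).add (((hm t).sin).const_mul C)).mul_const _)
      (fun t => ((((hm t).cos).const_mul C).sub (((hm t).sin).const_mul B)).mul_const _) ?_ ?_ ?_
    · intro t; ring
    · intro t; ring
    · intro t; ring
  have h2 := RMetric.Transport.curve _ _ h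
  simpa [fr] using h2

/-- a loop rotating the plane of the first two frame vectors by a right angle -/
theorem loop1 (y r w A B C : ℝ) :
    hN.Transport (vec y r w) (fr r A B C) (vec y r w) (fr r (-B) A C) := by
  set s := π / 4 * exp (-r) with hs
  have h1 := transport_r y r w (log 2) A B C
  have h2 := transport_y y (r + log 2) w s A B C
  have h3 := transport_r (y + s) (r + log 2) w (-log 2) (-A) (-B) C
  have h4 := transport_y (y + s) r w (-s) (-A) (-B) C
  have a1 : 2 * s * exp (r + log 2) = π := by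
    rw [exp_add, exp_log (by norm_num), hs]
    have : exp (-r) * exp r = 1 := by rw [← exp_add]; simp
    linear_combination π * this
  have a2 : 2 * -s * exp r = -(π / 2) := by
    rw [hs]
    have : exp (-r) * exp r = 1 := by rw [← exp_add]; simp
    linear_combination (-(π / 2)) * this
  rw [a1, cos_pi, sin_pi] at h2
  rw [a2, cos_neg, sin_neg, cos_pi_div_two, sin_pi_div_two] at h4
  have b1 : r + log 2 + -log 2 = r := by ring
  have b2 : y + s + -s = y := by ring
  rw [b1] at h3
  rw [b2] at h4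
  have c1 : A * -1 - B * 0 = -A := by ring
  have c2 : A * 0 + B * -1 = -B := by ring
  have c3 : -A * 0 - -B * -1 = -B := by ring
  have c4 : -A * -1 + -B * 0 = A := by ring
  rw [c1, c2] at h2
  rw [c3, c4] at h4
  exact ((h1.trans _ _ _ _ _ _ h2).trans _ _ _ _ _ _ h3).trans _ _ _ _ _ _ h4

/-- a loop rotating the plane of the first and the third frame vector by a right angle -/
theorem loop2 (y r w A B C : ℝ) :
    hN.Transport (vec y r w) (fr r A B C) (vec y r w) (fr r (-C) B A) := by
  have h1 := transport_w y r w (π / 2) A B C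
  rw [cos_pi_div_two, sin_pi_div_two] at h1
  have c1 : B * 0 + C * 1 = C := by ring
  have c2 : C * 0 - B * 1 = -B := by ring
  rw [c1, c2] at h1
  have h2 := loop1 y r (w + π / 2) A C (-B)
  have h3 := transport_w y r (w + π / 2) (-(π / 2)) (-C) A (-B)
  rw [cos_neg, sin_neg, cos_pi_div_two, sin_pi_div_two] at h3
  have c3 : A * 0 + -B * -1 = B := by ring
  have c4 : -B * 0 - A * -1 = A := by ring
  have c5 : w + π / 2 + -(π / 2) = w := by ring
  rw [c3, c4, c5] at h3
  exact (h1.trans _ _ _ _ _ _ h2).trans _ _ _ _ _ _ h3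

theorem fr_surj (r : ℝ) (v : V 3) : ∃ A B C, v = fr r A B C := by
  refine ⟨v 0 * exp (2 * r), v 1 * exp r, v 2 * exp r, ?_⟩
  have e1 : exp (2 * r) * exp (-(2 * r)) = 1 := by rw [← exp_add]; simp
  have e2 : exp r * exp (-r) = 1 := by rw [← exp_add]; simp
  unfold fr
  apply vec_ext
  · simp only [vec_zero]; rw [mul_assoc, e1, mul_one]
  · simp only [vec_one]; rw [mul_assoc, e2, mul_one]
  · simp only [vec_two]; rw [mul_assoc, e2, mul_one]

theorem fr_add (r A B C A' B' C' : ℝ) :
    fr r A B C + fr r A' B' C' = fr r (A + A') (B + B') (C + C') := by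
  unfold fr
  apply vec_ext <;> simp [add_mul]

theorem fr_smul (r k A B C : ℝ) : k • fr r A B C = fr r (k * A) (k * B) (k * C) := by
  unfold fr
  apply vec_ext <;> simp [mul_assoc]

theorem irreducible : hN.IrreducibleHolonomy := by
  intro p F hF
  by_cases hbot : F = ⊥
  · exact Or.inl hbot
  right
  obtain ⟨v, hv, hv0⟩ := (Submodule.ne_bot_iff F).1 hbot
  rw [eq_vec p] at hF
  set y := p 0
  set r := p 1
  set w := p 2
  have J1 : ∀ A B C, fr r A B C ∈ F → fr r (-B) A C ∈ F := fun A B C h =>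
    hF _ h _ (loop1 y r w A B C)
  have J2 : ∀ A B C, fr r A B C ∈ F → fr r (-C) B A ∈ F := fun A B C h =>
    hF _ h _ (loop2 y r w A B C)
  have P3 : ∀ A B C, fr r A B C ∈ F → fr r 0 0 C ∈ F := fun A B C h => by
    have h2 := J1 _ _ _ (J1 _ _ _ h)
    have h3 := F.smul_mem (1 / 2) (F.add_mem h h2)
    rw [fr_add, fr_smul] at h3
    convert h3 using 2 <;> ring
  have P2 : ∀ A B C, fr r A B C ∈ F → fr r 0 B 0 ∈ F := fun A B C h => by
    have h2 := J2 _ _ _ (J2 _ _ _ h)
    have h3 := F.smul_mem (1 / 2) (F.add_mem h h2)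
    rw [fr_add, fr_smul] at h3
    convert h3 using 2 <;> ring
  have P1 : ∀ A B C, fr r A B C ∈ F → fr r A 0 0 ∈ F := fun A B C h => by
    have h2 := P2 _ _ _ (J1 _ _ _ h)
    have h3 := J1 _ _ _ h2
    have h4 := F.smul_mem (-1) h3
    rw [fr_smul] at h4
    convert h4 using 2 <;> ring
  have key : fr r 1 0 0 ∈ F := by
    obtain ⟨A, B, C, rfl⟩ := fr_surj r v
    have hne : A ≠ 0 ∨ B ≠ 0 ∨ C ≠ 0 := by
      by_contra hcon
      push Not at hcon
      apply hv0
      rw [hcon.1, hcon.2.1, hcon.2.2]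
      unfold fr
      apply vec_ext <;> simp
    rcases hne with h | h | h
    · have h1 := F.smul_mem A⁻¹ (P1 _ _ _ hv)
      rw [fr_smul, inv_mul_cancel₀ h, mul_zero] at h1
      exact h1
    · have h1 := F.smul_mem (-B⁻¹) (J1 _ _ _ (P2 _ _ _ hv))
      rw [fr_smul] at h1
      convert h1 using 2
      · field_simp
      · ring
      · ring
    · have h1 := F.smul_mem (-C⁻¹) (J2 _ _ _ (P3 _ _ _ hv))
      rw [fr_smul] at h1
      convert h1 using 2
      · field_simp
      · ring
      · ring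
  rw [eq_top_iff]
  intro u _
  obtain ⟨A, B, C, rfl⟩ := fr_surj r u
  have k2 : fr r 0 1 0 ∈ F := by
    have := J1 _ _ _ key
    simpa using this
  have k3 : fr r 0 0 1 ∈ F := by
    have := J2 _ _ _ key
    simpa using this
  have h := F.add_mem (F.add_mem (F.smul_mem A key) (F.smul_mem B k2)) (F.smul_mem C k3)
  rw [fr_smul, fr_smul, fr_smul, fr_add, fr_add] at h
  convert h using 2 <;> ring

end Pool.Agent.R768.LCP
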