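import Pool.Agent.R768.LCP.Grp

/-!
# The LCP manifold
-/

set_option autoImplicit false

open scoped ContDiff Topology RealInnerProductSpace
open Set Filter Real

noncomputable section

namespace Pool.Agent.R768.LCP

theorem log_μ_pos : 0 < log μ := Real.log_pos one_lt_μ

theorem free' : ActsFreely Gam := by
  intro γ hγ p hfix
  obtain ⟨x, y⟩ := p
  obtain ⟨h1, h2⟩ := Prod.mk.inj hfix
  obtain ⟨k, a, b, e, s, hp, rfl⟩ := hγ
  have h3 := congrArg (fun v : V 3 => v 1) h2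
  simp only [el_snd, vec_one] at h3
  have hk : k = 0 := by
    have h4 : (k : ℝ) * log μ = 0 := by linarith
    rcases mul_eq_zero.1 h4 with h5 | h5
    · exact_mod_cast h5
    · exact absurd h5 log_μ_pos.ne'
  subst hk
  have h4 := congrArg (fun v : V 1 => v 0) h1
  simp only [el_fst, zpow_zero, one_mul] at h4
  obtain ⟨ha, hb⟩ := zr_eq_zero (a := a) (b := b) (by linarith)
  subst ha hb
  have hs : s = 1 := hp.2 (by simp)
  subst hs
  have h5 := congrArg (fun v : V 3 => v 2) h2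
  simp only [el_snd, vec_two, Units.val_one, Int.cast_one, one_mul] at h5
  have he : e = 0 := by
    have : (e : ℝ) = 0 := by linarith
    exact_mod_cast this
  subst he
  exact one_eq_el.symm

theorem abs_coord_le {m : ℕ} (v : V m) (i : Fin m) : |v i| ≤ ‖v‖ := by
  have := PiLp.norm_apply_le v i
  rwa [Real.norm_eq_abs] at this

theorem bound_ab {a b : ℤ} {B : ℝ} (h1 : |zr a b| ≤ B) (h2 : |zc a b| ≤ B) :
    |(a : ℝ)| ≤ B ∧ |(b : ℝ)| ≤ B := by
  rw [abs_le] at h1 h2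
  unfold zr at h1
  unfold zc at h2
  have h3 : (1 : ℝ) ≤ √3 := by
    rw [show (1 : ℝ) = √1 by simp]
    exact Real.sqrt_le_sqrt (by norm_num)
  have hB : 0 ≤ B := by linarith [h1.1, h1.2]
  refine ⟨abs_le.2 ⟨by linarith [h1.1, h2.1], by linarith [h1.2, h2.2]⟩, ?_⟩
  have h4 : |(b : ℝ) * √3| ≤ B := abs_le.2 ⟨by linarith [h1.1, h2.2], by linarith [h1.2, h2.1]⟩
  rw [abs_mul, abs_of_pos (by linarith : (0 : ℝ) < √3)] at h4
  nlinarith [abs_nonneg (b : ℝ)]

theorem proper : ActsProperlyDiscontinuously Gam := by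
  intro K hK
  unfold act
  obtain ⟨C, hC⟩ := hK.isBounded.exists_norm_le
  have hC1 : ∀ p ∈ K, ∀ i, |p.1 i| ≤ C := fun p hp i =>
    (abs_coord_le _ _).trans ((norm_fst_le p).trans (hC p hp))
  have hC2 : ∀ p ∈ K, ∀ i, |p.2 i| ≤ C := fun p hp i =>
    (abs_coord_le _ _).trans ((norm_snd_le p).trans (hC p hp))
  obtain ⟨k0, hk0⟩ := exists_nat_gt (2 * C / log μ)
  obtain ⟨n, hn⟩ := exists_nat_gt (max (k0 : ℝ) (C + μ ^ (k0 : ℤ) * C) + 2 * C)
  have hfin : (Icc (-(n : ℤ)) n ×ˢ Icc (-(n : ℤ)) n ×ˢ Icc (-(n : ℤ)) n ×ˢ Icc (-(n : ℤ)) n ×ˢ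
      (univ : Set ℤˣ)).Finite :=
    (finite_Icc _ _).prod ((finite_Icc _ _).prod ((finite_Icc _ _).prod ((finite_Icc _ _).prod
      finite_univ)))
  refine (hfin.image (fun t => el t.1 t.2.1 t.2.2.1 t.2.2.2.1 t.2.2.2.2)).subset ?_
  rintro γ ⟨⟨k, a, b, e, s, hp, rfl⟩, p, hpK, hqK⟩
  have hC0 : 0 ≤ C := (norm_nonneg _).trans (hC p hpK)
  have hL := log_μ_pos
  have hk : |(k : ℝ)| ≤ k0 := by
    have h1 := hC2 _ hqK 1
    have h2 := hC2 _ hpK 1
    simp only [el_snd, vec_one] at h1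
    have h3 : |(k : ℝ) * log μ| ≤ 2 * C := by
      have : (k : ℝ) * log μ = (p.2 1 + k * log μ) - p.2 1 := by ring
      rw [this]
      exact (abs_sub _ _).trans (by linarith)
    rw [abs_mul, abs_of_pos hL] at h3
    have h4 : |(k : ℝ)| ≤ 2 * C / log μ := by rwa [le_div_iff₀ hL]
    exact h4.trans hk0.le
  have hkZ : |k| ≤ (k0 : ℤ) := by exact_mod_cast hk
  have hpow : ∀ j : ℤ, |j| ≤ (k0 : ℤ) → μ ^ j ≤ μ ^ (k0 : ℤ) := fun j hj =>
    zpow_le_zpow_right₀ one_lt_μ.le ((le_abs_self j).trans hj)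
  have hr : |zr a b| ≤ C + μ ^ (k0 : ℤ) * C := by
    have h1 := hC1 _ hqK 0
    have h2 := hC1 _ hpK 0
    simp only [el_fst] at h1
    have : zr a b = (μ ^ k * p.1 0 + zr a b) - μ ^ k * p.1 0 := by ring
    rw [this]
    refine (abs_sub _ _).trans (add_le_add h1 ?_)
    rw [abs_mul, abs_of_pos (zpow_pos μ_pos k)]
    exact mul_le_mul (hpow k hkZ) h2 (abs_nonneg _) (zpow_pos μ_pos _).le
  have hc : |zc a b| ≤ C + μ ^ (k0 : ℤ) * C := by
    have h1 := hC2 _ hqK 0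
    have h2 := hC2 _ hpK 0
    simp only [el_snd, vec_zero] at h1
    have : zc a b = (μ ^ (-k) * p.2 0 + zc a b) - μ ^ (-k) * p.2 0 := by ring
    rw [this]
    refine (abs_sub _ _).trans (add_le_add h1 ?_)
    rw [abs_mul, abs_of_pos (zpow_pos μ_pos _)]
    exact mul_le_mul (hpow (-k) (by rwa [abs_neg])) h2 (abs_nonneg _) (zpow_pos μ_pos _).le
  obtain ⟨ha, hb⟩ := bound_ab hr hc
  have he : |(e : ℝ)| ≤ 2 * C := by
    have h1 := hC2 _ hqK 2
    have h2 := hC2 _ hpK 2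
    simp only [el_snd, vec_two] at h1
    have : (e : ℝ) = ((s : ℤ) * p.2 2 + e) - (s : ℤ) * p.2 2 := by ring
    rw [this]
    refine (abs_sub _ _).trans ?_
    have h3 : |((s : ℤ) : ℝ) * p.2 2| = |p.2 2| := by
      rw [abs_mul]
      rcases Int.units_eq_one_or s with rfl | rfl <;> simp
    rw [h3]
    linarith
  have hmem : ∀ j : ℤ, |(j : ℝ)| ≤ n → j ∈ Icc (-(n : ℤ)) n := by
    intro j hj
    rw [abs_le] at hj
    exact ⟨by exact_mod_cast hj.1, by exact_mod_cast hj.2⟩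
  have hm1 := le_max_left (k0 : ℝ) (C + μ ^ (k0 : ℤ) * C)
  have hm2 := le_max_right (k0 : ℝ) (C + μ ^ (k0 : ℤ) * C)
  have hk00 : (0 : ℝ) ≤ k0 := Nat.cast_nonneg _
  refine ⟨(k, a, b, e, s), ⟨hmem k ?_, hmem a ?_, hmem b ?_, hmem e ?_, mem_univ _⟩, rfl⟩
  · linarith
  · linarith
  · linarith
  · linarith

theorem cocompact : ActsCocompactly Gam := by
  unfold ActsCocompactly act
  refine ⟨Metric.closedBall 0 20, isCompact_closedBall _ _, fun p => ?_⟩
  have hL := log_μ_pos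
  have hμ3 : μ ≤ 4 := by
    unfold μ
    have : √3 ≤ √4 := Real.sqrt_le_sqrt (by norm_num)
    have h4 : √4 = 2 := by
      rw [show (4 : ℝ) = 2 ^ 2 by norm_num]
      exact Real.sqrt_sq (by norm_num)
    linarith
  have hL4 : log μ ≤ 4 := (Real.log_le_self μ_pos.le).trans hμ3
  set k : ℤ := -⌊p.2 1 / log μ⌋ with hk
  set X := μ ^ k * p.1 0 with hX
  set Y := μ ^ (-k) * p.2 0 with hY
  have h3 : (1 : ℝ) ≤ √3 := by
    rw [show (1 : ℝ) = √1 by simp]
    exact Real.sqrt_le_sqrt (by norm_num)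
  have h3' : √3 ≤ 2 := by
    have : √3 ≤ √4 := Real.sqrt_le_sqrt (by norm_num)
    have h4 : √4 = 2 := by
      rw [show (4 : ℝ) = 2 ^ 2 by norm_num]
      exact Real.sqrt_sq (by norm_num)
    linarith
  set P := (X + Y) / 2 with hP
  set Q := (X - Y) / (2 * √3) with hQ
  have hXP : X = P + Q * √3 := by
    rw [hP, hQ]; field_simp; ring
  have hYP : Y = P - Q * √3 := by
    rw [hP, hQ]; field_simp; ring
  set a : ℤ := -⌊P⌋ with ha
  set b : ℤ := -⌊Q⌋ with hb
  obtain ⟨s, hs⟩ : ∃ s : ℤˣ, Par a b s := by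
    by_cases h : Even (a + b)
    · exact ⟨1, by simp [Par, h]⟩
    · exact ⟨-1, by simp [Par, h]⟩
  set e : ℤ := -⌊(s : ℤ) * p.2 2⌋ with he
  refine ⟨el k a b e s, el_mem hs, ?_⟩
  rw [mem_closedBall_zero_iff]
  have hPf := Int.fract_nonneg P
  have hPf' := (Int.fract_lt_one P).le
  have hQf := Int.fract_nonneg Q
  have hQf' := (Int.fract_lt_one Q).le
  have hPe : P + a = Int.fract P := by rw [ha]; push_cast; rw [Int.fract]; ring
  have hQe : Q + b = Int.fract Q := by rw [hb]; push_cast; rw [Int.fract]; ring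
  have hx : |X + zr a b| ≤ 3 := by
    have : X + zr a b = Int.fract P + Int.fract Q * √3 := by
      unfold zr; rw [← hPe, ← hQe]; nth_rw 1 [hXP]; ring
    rw [this, abs_le]
    constructor <;> nlinarith
  have hy : |Y + zc a b| ≤ 3 := by
    have : Y + zc a b = Int.fract P - Int.fract Q * √3 := by
      unfold zc; rw [← hPe, ← hQe]; nth_rw 1 [hYP]; ring
    rw [this, abs_le]
    constructor <;> nlinarith
  have hr : |p.2 1 + k * log μ| ≤ 4 := by
    have : p.2 1 + k * log μ = Int.fract (p.2 1 / log μ) * log μ := by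
      rw [hk, Int.fract]; push_cast; field_simp
      ring
    rw [this, abs_mul, abs_of_pos hL, abs_of_nonneg (Int.fract_nonneg _)]
    have := (Int.fract_lt_one (p.2 1 / log μ)).le
    nlinarith [Int.fract_nonneg (p.2 1 / log μ)]
  have hw : |(s : ℤ) * p.2 2 + e| ≤ 1 := by
    have : (s : ℤ) * p.2 2 + e = Int.fract ((s : ℤ) * p.2 2) := by
      rw [he, Int.fract]; push_cast; ring
    rw [this, abs_of_nonneg (Int.fract_nonneg _)]
    exact (Int.fract_lt_one _).le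
  rw [Prod.norm_def]
  refine max_le ?_ ?_
  · have h5 : ‖(el k a b e s).1 p.1‖ = |(el k a b e s).1 p.1 0| := by
      rw [EuclideanSpace.norm_eq]
      simp [Real.sqrt_sq_eq_abs]
    rw [h5, el_fst]
    linarith
  · rw [el_snd]
    refine (norm_vec_le _ _ _).trans ?_
    linarith

/-- The LCP manifold. -/
def L0 : LCPManifold 1 3 where
  q_pos := le_rfl
  h := hN
  not_flat := not_flat
  not_complete := not_complete
  irreducible := irreducible
  Γ := Gam
  similarities := by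
    rintro γ ⟨k, a, b, e, s, hp, rfl⟩
    exact ⟨μ ^ k, zpow_pos μ_pos k, sim_hE _ _ (zpow_pos μ_pos k).ne', sim_el_snd _ _ _ _ _⟩
  free := free'
  properlyDiscontinuous := proper
  cocompact := cocompact
  nonexact := ⟨el 1 0 0 0 1, el_mem (by simp [Par]), μ ^ (1 : ℤ), zpow_pos μ_pos _,
    by rw [zpow_one]; exact one_lt_μ.ne', sim_el_snd _ _ _ _ _⟩

/-- the reflection `w ↦ -w` -/
def refl : V 3 ≃ₜ V 3 := (el 0 0 0 0 (-1)).2

theorem refl_apply (y : V 3) : refl y = vec (y 0) (y 1) (-(y 2)) := by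
  unfold refl
  rw [el_snd]
  apply vec_ext <;> simp [zc]

theorem refl_mem : refl ∈ L0.Pbar := by
  refine ⟨⟨1, one_pos, ?_⟩, ?_⟩
  · have := sim_el_snd 0 0 0 0 (-1)
    rwa [zpow_zero] at this
  · have hex : ∀ j : ℕ, ∃ a b : ℤ, zc a b = μ ^ (-(j : ℤ)) ∧ ¬ Even (a + b) := by
      intro j
      obtain ⟨a, b, -, h2, h3⟩ := zpow_unit j 1 0
      refine ⟨a, b, ?_, ?_⟩
      · rw [← h2]
        simp [zc]
      · rw [h3]
        decide
    choose a b hab hodd using hex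
    have hmem : ∀ j, toMap (el 0 (a j) (b j) 0 (-1)).2 ∈
        {u : C(V 3, V 3) | ∃ p ∈ L0.P, u = toMap p} := by
      intro j
      refine ⟨(el 0 (a j) (b j) 0 (-1)).2, ⟨el 0 (a j) (b j) 0 (-1), el_mem ?_, rfl⟩, rfl⟩
      simp only [Par, hodd j, iff_false]
      decide
    refine mem_closure_of_tendsto (b := atTop) (f := fun j => toMap (el 0 (a j) (b j) 0 (-1)).2)
      ?_ (Eventually.of_forall hmem)
    rw [ContinuousMap.tendsto_iff_forall_isCompact_tendstoUniformlyOn]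
    intro K _
    rw [Metric.tendstoUniformlyOn_iff]
    intro ε hε
    have hlim : Tendsto (fun j : ℕ => μ ^ (-(j : ℤ))) atTop (𝓝 0) := by
      have h1 : ∀ j : ℕ, μ ^ (-(j : ℤ)) = (μ⁻¹) ^ j := by
        intro j
        rw [zpow_neg, zpow_natCast, inv_pow]
      simp_rw [h1]
      exact tendsto_pow_atTop_nhds_zero_of_lt_one (inv_nonneg.2 μ_pos.le)
        (inv_lt_one_of_one_lt₀ one_lt_μ)
    filter_upwards [(tendsto_order.1 hlim).2 ε hε] with j hj y _
    change dist (refl y) ((el 0 (a j) (b j) 0 (-1)).2 y) < ε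
    rw [dist_comm, dist_eq_norm, refl_apply, el_snd]
    have h2 : vec (μ ^ (-(0 : ℤ)) * y 0 + zc (a j) (b j)) (y 1 + ((0 : ℤ) : ℝ) * log μ)
        ((((-1 : ℤˣ) : ℤ) : ℝ) * y 2 + ((0 : ℤ) : ℝ)) - vec (y 0) (y 1) (-(y 2)) =
        vec (μ ^ (-(j : ℤ))) 0 0 := by
      apply vec_ext
      · simp [hab]
      · simp
      · simp
    rw [h2]
    refine lt_of_le_of_lt (norm_vec_le _ _ _) ?_
    rw [abs_zero, add_zero, add_zero, abs_of_pos (zpow_pos μ_pos _)]
    exact hj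

theorem refl_ne_one : refl ≠ 1 := by
  intro h
  have h1 := congrArg (fun f : V 3 ≃ₜ V 3 => f (vec 0 0 1) 2) h
  simp only [refl_apply, vec_two] at h1
  have h2 : (1 : V 3 ≃ₜ V 3) (vec 0 0 1) 2 = 1 := rfl
  rw [h2] at h1
  norm_num at h1

theorem refl_fixed : refl 0 = 0 := by
  rw [refl_apply]
  apply vec_ext <;> simp

end Pool.Agent.R768.LCP
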