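import Pool.Agent.R768.LCP.Ex

/-!
# The metric is neither flat nor complete
-/

set_option autoImplicit false

open scoped ContDiff Topology RealInnerProductSpace
open Set Filter Real

noncomputable section

namespace Pool.Agent.R768.LCP

variable {m : ℕ}

theorem two_le_inf : (2 : WithTop ℕ∞) ≤ ∞ := by
  rw [show (2 : WithTop ℕ∞) = ((2 : ℕ∞) : WithTop ℕ∞) from rfl]
  exact WithTop.coe_le_coe.2 le_top

theorem one_one_le_inf : (1 : WithTop ℕ∞) + 1 ≤ ∞ := by
  rw [one_add_one_eq_two]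
  exact two_le_inf

theorem fderiv_metric {h : RMetric m} {U : Set (V m)} (hU : IsOpen U) {φ : V m → V m}
    (hφ : ContDiffOn ℝ ∞ φ U)
    (hiso : ∀ y ∈ U, ∀ v w : V m, h.g y v w = ⟪fderiv ℝ φ y v, fderiv ℝ φ y w⟫)
    {x : V m} (hx : x ∈ U) (u v w : V m) :
    dir (fun y => h.g y v w) x u =
      ⟪fderiv ℝ (fderiv ℝ φ) x u v, fderiv ℝ φ x w⟫ +
        ⟪fderiv ℝ φ x v, fderiv ℝ (fderiv ℝ φ) x u w⟫ := by
  have h1 : ContDiffAt ℝ ∞ φ x := hφ.contDiffAt (hU.mem_nhds hx)
  have h2 : DifferentiableAt ℝ (fderiv ℝ φ) x :=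
    (h1.fderiv_right (m := 1) one_one_le_inf).differentiableAt (by norm_num)
  have h3 : (fun y => h.g y v w) =ᶠ[𝓝 x] fun y => ⟪fderiv ℝ φ y v, fderiv ℝ φ y w⟫ := by
    filter_upwards [hU.mem_nhds hx] with y hy
    exact hiso y hy v w
  unfold dir
  rw [h3.fderiv_eq]
  have h4 : ∀ v : V m, HasFDerivAt (fun y => fderiv ℝ φ y v)
      ((ContinuousLinearMap.apply ℝ (V m) v).comp (fderiv ℝ (fderiv ℝ φ) x)) x := fun v =>
    (ContinuousLinearMap.apply ℝ (V m) v).hasFDerivAt.comp x h2.hasFDerivAt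
  rw [((h4 v).inner ℝ (h4 w)).fderiv]
  simp [add_comm]

theorem christoffel_eq {h : RMetric m} {U : Set (V m)} (hU : IsOpen U) {φ : V m → V m}
    (hφ : ContDiffOn ℝ ∞ φ U)
    (hiso : ∀ y ∈ U, ∀ v w : V m, h.g y v w = ⟪fderiv ℝ φ y v, fderiv ℝ φ y w⟫)
    {x : V m} (hx : x ∈ U) (u v w : V m) :
    h.christoffel x u v w = ⟪fderiv ℝ (fderiv ℝ φ) x u v, fderiv ℝ φ x w⟫ := by
  have h1 : ContDiffAt ℝ ∞ φ x := hφ.contDiffAt (hU.mem_nhds hx)
  have hs : IsSymmSndFDerivAt ℝ φ x := h1.isSymmSndFDerivAt (by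
    simp only [minSmoothness_of_isRCLikeNormedField]
    exact two_le_inf)
  unfold RMetric.christoffel
  rw [fderiv_metric hU hφ hiso hx, fderiv_metric hU hφ hiso hx, fderiv_metric hU hφ hiso hx,
    hs.eq v u, hs.eq w u, hs.eq w v, real_inner_comm (fderiv ℝ (fderiv ℝ φ) x u w) (fderiv ℝ φ x v),
    real_inner_comm (fderiv ℝ (fderiv ℝ φ) x v w) (fderiv ℝ φ x u)]
  ring

theorem parallel_const {h : RMetric m} {U : Set (V m)} (hU : IsOpen U) {φ : V m → V m}
    (hφ : ContDiffOn ℝ ∞ φ U)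
    (hiso : ∀ y ∈ U, ∀ v w : V m, h.g y v w = ⟪fderiv ℝ φ y v, fderiv ℝ φ y w⟫)
    {c X : ℝ → V m} (hp : h.IsParallel c X) (hc : ∀ t ∈ Icc (0 : ℝ) 1, c t ∈ U) :
    fderiv ℝ φ (c 1) (X 1) = fderiv ℝ φ (c 0) (X 0) := by
  obtain ⟨hcs, hXs, hpar⟩ := hp
  unfold SmoothCurve at hcs hXs
  have key : ∀ t ∈ Icc (0 : ℝ) 1, HasDerivAt (fun t => fderiv ℝ φ (c t) (X t)) 0 t := by
    intro t ht
    have hx := hc t ht
    have h1 : ContDiffAt ℝ ∞ φ (c t) := hφ.contDiffAt (hU.mem_nhds hx)
    have h2 : DifferentiableAt ℝ (fderiv ℝ φ) (c t) :=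
      (h1.fderiv_right (m := 1) one_one_le_inf).differentiableAt (by norm_num)
    have hc' : HasDerivAt c (deriv c t) t :=
      ((hcs.differentiable (by simp)) t).hasDerivAt
    have hX' : HasDerivAt X (deriv X t) t :=
      ((hXs.differentiable (by simp)) t).hasDerivAt
    have h3 : HasDerivAt (fun t => fderiv ℝ φ (c t)) (fderiv ℝ (fderiv ℝ φ) (c t) (deriv c t)) t :=
      h2.hasFDerivAt.comp_hasDerivAt t hc'
    have h4 := h3.clm_apply hX'
    have h5 : fderiv ℝ (fderiv ℝ φ) (c t) (deriv c t) (X t) + fderiv ℝ φ (c t) (deriv X t) = 0 := by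
      have hinj : Function.Injective (fderiv ℝ φ (c t)) := by
        rw [injective_iff_map_eq_zero]
        intro v hv
        by_contra hne
        have h6 := h.pos (c t) v hne
        rw [hiso _ hx, hv, inner_zero_left] at h6
        exact lt_irrefl _ h6
      have hsurj : Function.Surjective (fderiv ℝ φ (c t)) :=
        (LinearMap.injective_iff_surjective (f := (fderiv ℝ φ (c t) : V m →ₗ[ℝ] V m))).1 hinj
      obtain ⟨w, hw⟩ := hsurj
        (fderiv ℝ (fderiv ℝ φ) (c t) (deriv c t) (X t) + fderiv ℝ φ (c t) (deriv X t))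
      have h7 := hpar t w
      unfold vel at h7
      rw [christoffel_eq hU hφ hiso hx, hiso _ hx, ← inner_add_left, hw, add_comm] at h7
      rw [add_comm] at h7
      have h8 : fderiv ℝ φ (c t) (deriv X t) + fderiv ℝ (fderiv ℝ φ) (c t) (deriv c t) (X t) =
          fderiv ℝ (fderiv ℝ φ) (c t) (deriv c t) (X t) + fderiv ℝ φ (c t) (deriv X t) :=
        add_comm _ _
      rw [h8] at h7
      exact inner_self_eq_zero.1 h7
    rw [h5] at h4
    exact h4
  have hd : DifferentiableOn ℝ (fun t => fderiv ℝ φ (c t) (X t)) (Icc 0 1) := fun t ht =>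
    (key t ht).differentiableAt.differentiableWithinAt
  have h0 : ∀ t ∈ Ico (0 : ℝ) 1,
      derivWithin (fun t => fderiv ℝ φ (c t) (X t)) (Icc 0 1) t = 0 := fun t ht =>
    ((key t ⟨ht.1, ht.2.le⟩).hasDerivWithinAt).derivWithin
      (uniqueDiffOn_Icc (by norm_num : (0 : ℝ) < 1) t ⟨ht.1, ht.2.le⟩)
  exact constant_of_derivWithin_zero hd h0 1 ⟨by norm_num, le_rfl⟩

theorem norm_vec_le (a b c : ℝ) : ‖vec a b c‖ ≤ |a| + |b| + |c| := by
  have h1 : ‖vec a b c‖ = ‖a • vec 1 0 0 + b • vec 0 1 0 + c • vec 0 0 1‖ := by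
    rw [← vec_decomp]
  have n1 : ‖vec 1 0 0‖ = 1 := by simp [EuclideanSpace.norm_eq, Fin.sum_univ_three]
  have n2 : ‖vec 0 1 0‖ = 1 := by simp [EuclideanSpace.norm_eq, Fin.sum_univ_three]
  have n3 : ‖vec 0 0 1‖ = 1 := by simp [EuclideanSpace.norm_eq, Fin.sum_univ_three]
  rw [h1]
  refine (norm_add_le _ _).trans (add_le_add ((norm_add_le _ _).trans (add_le_add ?_ ?_)) ?_)
  · rw [norm_smul, n1, mul_one, Real.norm_eq_abs]
  · rw [norm_smul, n2, mul_one, Real.norm_eq_abs]
  · rw [norm_smul, n3, mul_one, Real.norm_eq_abs]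

theorem par_r (y r w ρ A B C : ℝ) : hN.IsParallel (fun t => vec y (r + ρ * t) w)
      (fun t => vec (A * exp (-(2 * (r + ρ * t)))) (B * exp (-(r + ρ * t)))
        (C * exp (-(r + ρ * t)))) := by
  have hl : ∀ t : ℝ, HasDerivAt (fun t : ℝ => r + ρ * t) ρ t := fun t => by
    simpa using ((hasDerivAt_id t).const_mul ρ).const_add r
  refine isParallel_of (c0' := fun _ => 0) (c1' := fun _ => ρ) (c2' := fun _ => 0)
    (X0' := fun t => A * (exp (-(2 * (r + ρ * t))) * (-(2 * ρ))))
    (X1' := fun t => B * (exp (-(r + ρ * t)) * (-ρ)))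
    (X2' := fun t => C * (exp (-(r + ρ * t)) * (-ρ)))
    contDiff_const (by fun_prop) contDiff_const (by fun_prop) (by fun_prop) (by fun_prop)
    (fun t => hasDerivAt_const t _) hl (fun t => hasDerivAt_const t _)
    (fun t => ((((hl t).const_mul 2).neg).exp).const_mul A)
    (fun t => (((hl t).neg).exp).const_mul B)
    (fun t => (((hl t).neg).exp).const_mul C) ?_ ?_ ?_
  · intro t; ring
  · intro t; ring
  · intro t; ring

theorem par_y (y r w σ A B C : ℝ) : hN.IsParallel (fun t => vec (y + σ * t) r w)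
      (fun t => vec
        ((A * cos (2 * σ * exp r * t) - B * sin (2 * σ * exp r * t)) * exp (-(2 * r)))
        ((A * sin (2 * σ * exp r * t) + B * cos (2 * σ * exp r * t)) * exp (-r))
        (C * exp (-r))) := by
  set θ := 2 * σ * exp r with hθ
  have hl : ∀ a b t : ℝ, HasDerivAt (fun t : ℝ => a + b * t) b t := fun a b t => by
    simpa using ((hasDerivAt_id t).const_mul b).const_add a
  have hm : ∀ t : ℝ, HasDerivAt (fun t : ℝ => θ * t) θ t := fun t => by
    simpa using ((hasDerivAt_id t).const_mul θ)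
  have e1 : exp (-(2 * r)) = exp (-r) * exp (-r) := by rw [← exp_add]; ring_nf
  have e2 : exp r * exp (-r) = 1 := by rw [← exp_add]; simp
  have e3 : exp (2 * r) = exp r * exp r := by rw [← exp_add]; ring_nf
  refine isParallel_of (c0' := fun _ => σ) (c1' := fun _ => 0) (c2' := fun _ => 0)
    (X0' := fun t => (A * (-sin (θ * t) * θ) - B * (cos (θ * t) * θ)) * exp (-(2 * r)))
    (X1' := fun t => (A * (cos (θ * t) * θ) + B * (-sin (θ * t) * θ)) * exp (-r))
    (X2' := fun _ => 0)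
    (by fun_prop) contDiff_const contDiff_const (by fun_prop) (by fun_prop) contDiff_const
    (hl y σ) (fun t => hasDerivAt_const t _) (fun t => hasDerivAt_const t _)
    (fun t => ((((hm t).cos).const_mul A).sub (((hm t).sin).const_mul B)).mul_const _)
    (fun t => ((((hm t).sin).const_mul A).add (((hm t).cos).const_mul B)).mul_const _)
    (fun t => hasDerivAt_const t _) ?_ ?_ ?_
  · intro t
    rw [e1, hθ]
    linear_combination (-(A * sin (2 * σ * exp r * t) + B * cos (2 * σ * exp r * t)) * 2 * σ *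
      exp (-r)) * e2
  · intro t
    rw [e1, e3, hθ]
    linear_combination ((A * cos (2 * σ * exp r * t) - B * sin (2 * σ * exp r * t)) * 2 * σ) *
      (e2 - (exp r * exp (-r) + 1) * e2)
  · intro t; ring

theorem not_flat : ¬ hN.IsFlat := by
  intro hflat
  obtain ⟨U, hU, h0, φ, hφ, hiso⟩ := hflat (vec 0 0 0)
  unfold dot dmap at hiso
  obtain ⟨ε, hε, hball⟩ := Metric.isOpen_iff.1 hU _ h0
  obtain ⟨s, hs0, hs1, hsε⟩ : ∃ s : ℝ, 0 < s ∧ s ≤ 1 / 4 ∧ 2 * s < ε := by
    refine ⟨min (1 / 4) (ε / 4), by positivity, min_le_left _ _, ?_⟩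
    have := min_le_right (1 / 4) (ε / 4)
    linarith
  have hin : ∀ a b : ℝ, |a| ≤ s → |b| ≤ s → vec a b 0 ∈ U := by
    intro a b ha hb
    apply hball
    have hv : vec 0 0 0 = 0 := by apply vec_ext <;> simp
    rw [hv, mem_ball_zero_iff]
    have := norm_vec_le a b 0
    rw [abs_zero] at this
    linarith
  have hab : ∀ t ∈ Icc (0 : ℝ) 1, |s * t| ≤ s := by
    intro t ht
    rw [abs_of_nonneg (mul_nonneg hs0.le ht.1)]
    nlinarith [ht.2]
  have hab2 : ∀ t ∈ Icc (0 : ℝ) 1, |s + -s * t| ≤ s := by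
    intro t ht
    have h1 : 0 ≤ s + -s * t := by nlinarith [ht.2]
    rw [abs_of_nonneg h1]
    nlinarith [ht.1]
  have hss : |s| ≤ s := (abs_of_pos hs0).le
  have h00 : |(0 : ℝ)| ≤ s := by rw [abs_zero]; exact hs0.le
  have q1 := parallel_const hU hφ hiso (par_r 0 0 0 s 1 0 0)
    (fun t ht => by simpa using hin 0 (s * t) h00 (hab t ht))
  have q2 := parallel_const hU hφ hiso (par_y 0 s 0 s 1 0 0)
    (fun t ht => by simpa using hin (s * t) s (hab t ht) hss)
  have q3 := parallel_const hU hφ hiso (par_r s s 0 (-s) (cos (2 * s * exp s))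
    (sin (2 * s * exp s)) 0) (fun t ht => hin s (s + -s * t) hss (hab2 t ht))
  have q4 := parallel_const hU hφ hiso (par_y s 0 0 (-s) (cos (2 * s * exp s))
    (sin (2 * s * exp s)) 0) (fun t ht => hin (s + -s * t) 0 (hab2 t ht) h00)
  simp only [mul_one, mul_zero, zero_add, add_zero, sub_zero, add_neg_cancel, neg_zero, exp_zero,
    one_mul, zero_mul, cos_zero, sin_zero] at q1 q2 q3 q4
  rw [q3, q2, q1] at q4
  set α := 2 * s * exp s with hα
  have hinj : Function.Injective (fderiv ℝ φ (vec 0 0 0)) := by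
    rw [injective_iff_map_eq_zero]
    intro v hv
    by_contra hne
    have h6 := hN.pos (vec 0 0 0) v hne
    rw [hiso _ h0, hv, inner_zero_left] at h6
    exact lt_irrefl _ h6
  have hv := hinj q4
  have hv1 := congrArg (fun v : V 3 => v 1) hv
  simp only [vec_one] at hv1
  have h7 : sin (α - 2 * s) = 0 := by
    rw [sin_sub]
    have : 2 * -s = -(2 * s) := by ring
    rw [this, cos_neg, sin_neg] at hv1
    linarith
  have hlt : 2 * s < α := by
    rw [hα]
    have : 1 < exp s := Real.one_lt_exp_iff.2 hs0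
    nlinarith
  have hle : α - 2 * s < π := by
    have h8 : exp s ≤ exp 1 := exp_le_exp.2 (by linarith)
    have h9 : exp 1 < 2.7182818286 := Real.exp_one_lt_d9
    have h10 : (3 : ℝ) < π := Real.pi_gt_three
    have : α ≤ 2 * (1 / 4) * 2.7182818286 := by
      rw [hα]
      apply mul_le_mul _ (h8.trans h9.le) (exp_pos s).le (by norm_num)
      linarith
    linarith
  exact (sin_pos_of_pos_of_lt_pi (by linarith) hle).ne' h7

/-! ### Non-completeness -/

theorem rdist_le {h : RMetric m} {c : ℝ → V m} (hc : ContDiff ℝ ∞ c) :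
    h.rdist (c 0) (c 1) ≤ h.length c := by
  unfold RMetric.rdist
  refine csInf_le ⟨0, ?_⟩ ⟨c, hc, rfl, rfl, rfl⟩
  rintro l ⟨c', -, -, -, rfl⟩
  exact intervalIntegral.integral_nonneg (by norm_num) fun t _ => Real.sqrt_nonneg _

theorem length_vert (a d : ℝ) : hN.length (fun t => vec 0 (a + d * t) 0) ≤
    max (exp a) (exp (a + d)) := by
  unfold RMetric.length
  have hl : ∀ t : ℝ, HasDerivAt (fun t : ℝ => a + d * t) d t := fun t => by
    simpa using ((hasDerivAt_id t).const_mul d).const_add a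
  have h1 : ∀ t : ℝ, √(hN.g ((fun t => vec 0 (a + d * t) 0) t)
      (vel (fun t => vec 0 (a + d * t) 0) t) (vel (fun t => vec 0 (a + d * t) 0) t)) =
      |d| * exp (a + d * t) := by
    intro t
    unfold vel
    rw [(hasDerivAt_vec (hasDerivAt_const t _) (hl t) (hasDerivAt_const t _)).deriv]
    have : hN.g = gN := rfl
    rw [this, gN_apply]
    simp only [vec_zero, vec_one, vec_two, mul_zero, add_zero, zero_add]
    have e3 : exp (2 * (a + d * t)) = exp (a + d * t) * exp (a + d * t) := by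
      rw [← exp_add]; ring_nf
    rw [e3]
    have : exp (a + d * t) * exp (a + d * t) * (d * d) = (d * exp (a + d * t)) ^ 2 := by ring
    rw [this, Real.sqrt_sq_eq_abs, abs_mul, abs_of_pos (exp_pos _)]
  simp_rw [h1]
  have h2 : ∀ t : ℝ, HasDerivAt (fun t => exp (a + d * t)) (d * exp (a + d * t)) t := fun t => by
    have := (hl t).exp
    rwa [mul_comm] at this
  have h3 : ∫ t in (0 : ℝ)..1, d * exp (a + d * t) = exp (a + d * 1) - exp (a + d * 0) := by
    apply intervalIntegral.integral_eq_sub_of_hasDerivAt (fun t _ => h2 t)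
    apply Continuous.intervalIntegrable
    fun_prop
  rw [mul_one, mul_zero, add_zero] at h3
  rcases le_total 0 d with hd | hd
  · rw [abs_of_nonneg hd, h3]
    have := exp_pos a
    exact le_trans (by linarith) (le_max_right _ _)
  · rw [abs_of_nonpos hd]
    have h4 : ∫ t in (0 : ℝ)..1, -d * exp (a + d * t) = exp a - exp (a + d) := by
      have : ∀ t : ℝ, -d * exp (a + d * t) = -(d * exp (a + d * t)) := fun t => by ring
      simp_rw [this]
      rw [intervalIntegral.integral_neg, h3]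
      ring
    rw [h4]
    have := exp_pos (a + d)
    exact le_trans (by linarith) (le_max_left _ _)

theorem not_complete : ¬ hN.IsComplete := by
  intro hcomp
  obtain ⟨x, hx⟩ := hcomp (fun n => vec 0 (-(n : ℝ)) 0) (by
    intro ε hε
    obtain ⟨n, hn⟩ := exists_nat_gt (-log ε)
    refine ⟨n, fun i hi j hj => ?_⟩
    have h1 := rdist_le (h := hN) (c := fun t => vec 0 (-(i : ℝ) + ((i : ℝ) - j) * t) 0)
      (contDiff_vec contDiff_const (by fun_prop) contDiff_const)
    have h2 := length_vert (-(i : ℝ)) ((i : ℝ) - j)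
    have h3 : -(i : ℝ) + ((i : ℝ) - j) * 0 = -i := by ring
    have h4 : -(i : ℝ) + ((i : ℝ) - j) * 1 = -j := by ring
    have h5 : -(i : ℝ) + ((i : ℝ) - j) = -j := by ring
    simp only [h3, h4] at h1
    rw [h5] at h2
    have hlt : ∀ k : ℕ, n ≤ k → exp (-(k : ℝ)) < ε := by
      intro k hk
      rw [← exp_log hε]
      apply exp_lt_exp.2
      have : (n : ℝ) ≤ k := by exact_mod_cast hk
      linarith
    exact lt_of_le_of_lt (h1.trans h2) (max_lt (hlt i hi) (hlt j hj)))
  have h1 : Tendsto (fun n : ℕ => (vec 0 (-(n : ℝ)) 0) 1) atTop (𝓝 (x 1)) :=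
    ((pr 1).continuous.tendsto x).comp hx
  simp only [vec_one] at h1
  have h2 : Tendsto (fun n : ℕ => -(n : ℝ)) atTop atBot :=
    tendsto_neg_atTop_atBot.comp tendsto_natCast_atTop_atTop
  exact not_tendsto_nhds_of_tendsto_atBot h2 _ h1

end Pool.Agent.R768.LCP
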