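import Pool.Agent.R768.LCP.Flat

/-!
# The group
-/

set_option autoImplicit false

open scoped ContDiff Topology RealInnerProductSpace
open Set Filter Real

noncomputable section

namespace Pool.Agent.R768.LCP

/-- the unit `2 + √3` of `ℤ[√3]` -/
def μ : ℝ := 2 + √3

theorem sq3 : √3 * √3 = 3 := Real.mul_self_sqrt (by norm_num)

theorem μ_pos : 0 < μ := by unfold μ; positivity

theorem one_lt_μ : 1 < μ := by
  have := Real.sqrt_nonneg 3
  unfold μ; linarith

theorem μ_inv : μ⁻¹ = 2 - √3 := by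
  have h : μ * (2 - √3) = 1 := by unfold μ; nlinarith [sq3]
  exact inv_eq_of_mul_eq_one_right h

theorem irr3 : Irrational (√3) := by
  have := Nat.Prime.irrational_sqrt (p := 3) Nat.prime_three
  exact_mod_cast this

/-- the element `a + b √3` -/
def zr (a b : ℤ) : ℝ := a + b * √3

/-- the conjugate `a - b √3` -/
def zc (a b : ℤ) : ℝ := a - b * √3

theorem zr_eq_zero {a b : ℤ} (h : zr a b = 0) : a = 0 ∧ b = 0 := by
  by_cases hb : b = 0
  · subst hb
    unfold zr at h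
    simp only [Int.cast_zero, zero_mul, add_zero, Int.cast_eq_zero] at h
    exact ⟨h, rfl⟩
  · exfalso
    apply irr3
    refine ⟨-(a : ℚ) / b, ?_⟩
    unfold zr at h
    have hb' : (b : ℝ) ≠ 0 := by exact_mod_cast hb
    push_cast
    field_simp
    linarith

theorem mul_unit (a b : ℤ) : μ * zr a b = zr (2 * a + 3 * b) (a + 2 * b) ∧
    μ⁻¹ * zc a b = zc (2 * a + 3 * b) (a + 2 * b) := by
  rw [μ_inv]
  unfold zr zc μ
  push_cast
  constructor <;> linear_combination (b : ℝ) * sq3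

theorem mul_unit_inv (a b : ℤ) : μ⁻¹ * zr a b = zr (2 * a - 3 * b) (-a + 2 * b) ∧
    μ * zc a b = zc (2 * a - 3 * b) (-a + 2 * b) := by
  rw [μ_inv]
  unfold zr zc μ
  push_cast
  constructor <;> linear_combination (-(b : ℝ)) * sq3

theorem zpow_unit (k : ℤ) : ∀ a b : ℤ, ∃ a' b' : ℤ, μ ^ k * zr a b = zr a' b' ∧
    μ ^ (-k) * zc a b = zc a' b' ∧ (Even (a' + b') ↔ Even (a + b)) := by
  have hμ := μ_pos.ne'
  induction k using Int.induction_on with
  | zero => intro a b; exact ⟨a, b, by simp, by simp, Iff.rfl⟩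
  | succ n ih =>
    intro a b
    obtain ⟨a', b', h1, h2, h3⟩ := ih a b
    refine ⟨2 * a' + 3 * b', a' + 2 * b', ?_, ?_, ?_⟩
    · rw [zpow_add_one₀ hμ, mul_comm (μ ^ (n : ℤ)) μ, mul_assoc, h1]
      exact (mul_unit a' b').1
    · rw [neg_add, zpow_add₀ hμ, zpow_neg_one, mul_comm (μ ^ (-(n : ℤ))), mul_assoc, h2]
      exact (mul_unit a' b').2
    · rw [← h3]
      constructor
      · intro h
        have : a' + b' = (2 * a' + 3 * b' + (a' + 2 * b')) - 2 * (a' + 2 * b') := by ring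
        rw [this]
        exact h.sub (even_two_mul _)
      · intro h
        have : 2 * a' + 3 * b' + (a' + 2 * b') = (a' + b') + 2 * (a' + 2 * b') := by ring
        rw [this]
        exact h.add (even_two_mul _)
  | pred n ih =>
    intro a b
    obtain ⟨a', b', h1, h2, h3⟩ := ih a b
    refine ⟨2 * a' - 3 * b', -a' + 2 * b', ?_, ?_, ?_⟩
    · rw [zpow_sub_one₀ hμ, mul_comm (μ ^ (-(n : ℤ))) μ⁻¹, mul_assoc, h1]
      exact (mul_unit_inv a' b').1
    · have : -(-(n : ℤ) - 1) = -(-(n : ℤ)) + 1 := by ring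
      rw [this, zpow_add_one₀ hμ, mul_comm (μ ^ (-(-(n : ℤ)))) μ, mul_assoc, h2]
      exact (mul_unit_inv a' b').2
    · rw [← h3]
      constructor
      · intro h
        have : a' + b' = (2 * a' - 3 * b' + (-a' + 2 * b')) + 2 * b' := by ring
        rw [this]
        exact h.add (even_two_mul _)
      · intro h
        have : 2 * a' - 3 * b' + (-a' + 2 * b') = (a' + b') - 2 * b' := by ring
        rw [this]
        exact h.sub (even_two_mul _)

/-- the homeomorphism `x ↦ p x + a` of `ℝ^1` -/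
def hE (p a : ℝ) (hp : p ≠ 0) : V 1 ≃ₜ V 1 where
  toFun x := p • x + !₂[a]
  invFun x := p⁻¹ • (x - !₂[a])
  left_inv x := by simp [smul_smul, inv_mul_cancel₀ hp]
  right_inv x := by simp [smul_smul, mul_inv_cancel₀ hp]
  continuous_toFun := by fun_prop
  continuous_invFun := by fun_prop

/-- the homeomorphism `(y, r, w) ↦ (p y + a, r + l, s w + e)` of `ℝ^3` -/
def hF (p a l s e : ℝ) (hp : p ≠ 0) (hs : s ≠ 0) : V 3 ≃ₜ V 3 where
  toFun y := vec (p * y 0 + a) (y 1 + l) (s * y 2 + e)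
  invFun y := vec (p⁻¹ * (y 0 - a)) (y 1 - l) (s⁻¹ * (y 2 - e))
  left_inv y := by
    apply vec_ext
    · simp [inv_mul_cancel_left₀ hp]
    · simp
    · simp [inv_mul_cancel_left₀ hs]
  right_inv y := by
    apply vec_ext
    · simp [mul_inv_cancel_left₀ hp]
    · simp
    · simp [mul_inv_cancel_left₀ hs]
  continuous_toFun := by
    rw [(PiLp.homeomorph 2 (fun _ : Fin 3 => ℝ)).symm.symm.comp_continuous_iff.symm]
    refine continuous_pi fun i => ?_
    fin_cases i <;> simp [vec] <;> fun_prop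
  continuous_invFun := by
    rw [(PiLp.homeomorph 2 (fun _ : Fin 3 => ℝ)).symm.symm.comp_continuous_iff.symm]
    refine continuous_pi fun i => ?_
    fin_cases i <;> simp [vec] <;> fun_prop

theorem hE_apply (p a : ℝ) (hp : p ≠ 0) (x : V 1) : hE p a hp x 0 = p * x 0 + a := by
  simp [hE]

theorem hF_apply (p a l s e : ℝ) (hp : p ≠ 0) (hs : s ≠ 0) (y : V 3) :
    hF p a l s e hp hs y = vec (p * y 0 + a) (y 1 + l) (s * y 2 + e) := rfl

theorem ext1 {x y : V 1} (h : x 0 = y 0) : x = y := by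
  ext i
  fin_cases i
  exact h

theorem sg_ne (s : ℤˣ) : ((s : ℤ) : ℝ) ≠ 0 := by
  exact_mod_cast s.ne_zero

theorem sg_sq (s : ℤˣ) : ((s : ℤ) : ℝ) * ((s : ℤ) : ℝ) = 1 := by
  have : (s : ℤ) * (s : ℤ) = 1 := by
    rw [← Units.val_mul, ← sq, Int.units_sq, Units.val_one]
  exact_mod_cast this

/-- the pairs of transformations -/
def el (k a b e : ℤ) (s : ℤˣ) : (V 1 ≃ₜ V 1) × (V 3 ≃ₜ V 3) :=
  (hE (μ ^ k) (zr a b) (zpow_pos μ_pos k).ne',
    hF (μ ^ (-k)) (zc a b) (k * log μ) (s : ℤ) e (zpow_pos μ_pos _).ne' (sg_ne s))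

theorem el_fst (k a b e : ℤ) (s : ℤˣ) (x : V 1) : (el k a b e s).1 x 0 = μ ^ k * x 0 + zr a b :=
  hE_apply _ _ (zpow_pos μ_pos k).ne' _

theorem el_snd (k a b e : ℤ) (s : ℤˣ) (y : V 3) : (el k a b e s).2 y =
    vec (μ ^ (-k) * y 0 + zc a b) (y 1 + k * log μ) ((s : ℤ) * y 2 + e) := rfl

theorem eq_el {γ : (V 1 ≃ₜ V 1) × (V 3 ≃ₜ V 3)} {k a b e : ℤ} {s : ℤˣ}
    (h1 : ∀ x, γ.1 x 0 = μ ^ k * x 0 + zr a b)
    (h2 : ∀ y, γ.2 y = vec (μ ^ (-k) * y 0 + zc a b) (y 1 + k * log μ) ((s : ℤ) * y 2 + e)) :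
    γ = el k a b e s := by
  apply Prod.ext
  · apply Homeomorph.ext
    intro x
    apply ext1
    rw [h1, el_fst]
  · apply Homeomorph.ext
    intro y
    rw [h2, el_snd]

theorem zr_add (a b a' b' : ℤ) : zr (a + a') (b + b') = zr a b + zr a' b' := by
  unfold zr; push_cast; ring

theorem zc_add (a b a' b' : ℤ) : zc (a + a') (b + b') = zc a b + zc a' b' := by
  unfold zc; push_cast; ring

theorem zr_neg (a b : ℤ) : zr (-a) (-b) = -zr a b := by
  unfold zr; push_cast; ring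

theorem zc_neg (a b : ℤ) : zc (-a) (-b) = -zc a b := by
  unfold zc; push_cast; ring

/-- the parity condition: `s = 1` if and only if `a + b` is even -/
def Par (a b : ℤ) (s : ℤˣ) : Prop := s = 1 ↔ Even (a + b)

theorem one_eq_el : (1 : (V 1 ≃ₜ V 1) × (V 3 ≃ₜ V 3)) = el 0 0 0 0 1 := by
  apply eq_el
  · intro x
    simp [zr]
  · intro y
    have h : (1 : (V 1 ≃ₜ V 1) × (V 3 ≃ₜ V 3)).2 y = y := rfl
    rw [h]
    apply vec_ext <;> simp [zc]

theorem el_mul (k a b e : ℤ) (s : ℤˣ) (k' a' b' e' : ℤ) (s' : ℤˣ) (c d : ℤ)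
    (h1 : μ ^ k * zr a' b' = zr c d) (h2 : μ ^ (-k) * zc a' b' = zc c d) :
    el k a b e s * el k' a' b' e' s' = el (k + k') (c + a) (d + b) (s * e' + e) (s * s') := by
  apply eq_el
  · intro x
    rw [Prod.fst_mul, Homeomorph.mul_apply, el_fst, el_fst, zr_add, ← h1, zpow_add₀ μ_pos.ne']
    ring
  · intro y
    rw [Prod.snd_mul, Homeomorph.mul_apply, el_snd, el_snd, zc_add, ← h2, neg_add,
      zpow_add₀ μ_pos.ne']
    simp only [vec_zero, vec_one, vec_two]
    apply vec_ext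
    · simp only [vec_zero]; ring
    · simp only [vec_one]; push_cast; ring
    · simp only [vec_two]; push_cast; ring

theorem even_add_iff {p q : ℤ} : Even (p + q) ↔ (Even p ↔ Even q) := Int.even_add

theorem units_mul_eq_one (s t : ℤˣ) : s * t = 1 ↔ (s = 1 ↔ t = 1) := by
  rcases Int.units_eq_one_or s with rfl | rfl <;> rcases Int.units_eq_one_or t with rfl | rfl <;>
    decide

/-- the fundamental group -/
def Gam : Subgroup ((V 1 ≃ₜ V 1) × (V 3 ≃ₜ V 3)) where
  carrier := {γ | ∃ (k a b e : ℤ) (s : ℤˣ), Par a b s ∧ γ = el k a b e s}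
  one_mem' := ⟨0, 0, 0, 0, 1, by simp [Par], one_eq_el⟩
  mul_mem' := by
    rintro _ _ ⟨k, a, b, e, s, hp, rfl⟩ ⟨k', a', b', e', s', hp', rfl⟩
    obtain ⟨c, d, h1, h2, h3⟩ := zpow_unit k a' b'
    refine ⟨k + k', c + a, d + b, s * e' + e, s * s', ?_, el_mul _ _ _ _ _ _ _ _ _ _ _ _ h1 h2⟩
    unfold Par at *
    have h4 : c + a + (d + b) = (a + b) + (c + d) := by ring
    rw [h4, even_add_iff, h3, ← hp, ← hp', units_mul_eq_one]
  inv_mem' := by
    rintro _ ⟨k, a, b, e, s, hp, rfl⟩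
    obtain ⟨c, d, h1, h2, h3⟩ := zpow_unit (-k) a b
    refine ⟨-k, -c, -d, -(s * e), s, ?_, ?_⟩
    · unfold Par at *
      have h4 : -c + -d = -(c + d) := by ring
      rw [h4, even_neg, h3, hp]
    · rw [inv_eq_iff_mul_eq_one]
      have h5 : μ ^ k * zr (-c) (-d) = zr (-a) (-b) := by
        rw [zr_neg, zr_neg, ← h1, zpow_neg]
        have := (zpow_pos μ_pos k).ne'
        field_simp
      have h6 : μ ^ (-k) * zc (-c) (-d) = zc (-a) (-b) := by
        rw [zc_neg, zc_neg, ← h2, neg_neg, zpow_neg]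
        have := (zpow_pos μ_pos k).ne'
        field_simp
      rw [el_mul _ _ _ _ _ _ _ _ _ _ _ _ h5 h6, one_eq_el]
      have e1 : (s : ℤ) * -(s * e) + e = 0 := by
        have : (s : ℤ) * (s : ℤ) = 1 := by
          rw [← Units.val_mul, ← sq, Int.units_sq, Units.val_one]
        linear_combination (-e) * this
      have e2 : s * s = 1 := by rw [← sq, Int.units_sq]
      rw [e1, e2, add_neg_cancel, neg_add_cancel, neg_add_cancel]

theorem el_mem {k a b e : ℤ} {s : ℤˣ} (h : Par a b s) : el k a b e s ∈ Gam := ⟨k, a, b, e, s, h, rfl⟩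

/-! ### Similarities -/

/-- linear part of `hF` -/
def linF (p s : ℝ) : V 3 →L[ℝ] V 3 :=
  LinearMap.toContinuousLinearMap
    { toFun := fun v => vec (p * v 0) (v 1) (s * v 2)
      map_add' := fun v w => by apply vec_ext <;> simp [mul_add]
      map_smul' := fun k v => by
        apply vec_ext
        · simp; ring
        · simp
        · simp; ring }

theorem linF_apply (p s : ℝ) (v : V 3) : linF p s v = vec (p * v 0) (v 1) (s * v 2) := rfl

theorem hF_eq (p a l s e : ℝ) (hp : p ≠ 0) (hs : s ≠ 0) :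
    (hF p a l s e hp hs : V 3 → V 3) = fun y => linF p s y + vec a l e := by
  funext y
  rw [hF_apply, linF_apply]
  apply vec_ext <;> simp

theorem contDiff_hF (p a l s e : ℝ) (hp : p ≠ 0) (hs : s ≠ 0) :
    ContDiff ℝ ∞ (hF p a l s e hp hs) := by
  rw [hF_eq]
  exact (linF p s).contDiff.add contDiff_const

theorem contDiff_hF_symm (p a l s e : ℝ) (hp : p ≠ 0) (hs : s ≠ 0) :
    ContDiff ℝ ∞ (hF p a l s e hp hs).symm := by
  have h : ((hF p a l s e hp hs).symm : V 3 → V 3) =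
      hF p⁻¹ (-(p⁻¹ * a)) (-l) s⁻¹ (-(s⁻¹ * e)) (inv_ne_zero hp) (inv_ne_zero hs) := by
    funext y
    change vec (p⁻¹ * (y 0 - a)) (y 1 - l) (s⁻¹ * (y 2 - e)) = _
    rw [hF_apply]
    apply vec_ext
    · simp only [vec_zero]; ring
    · simp only [vec_one]; ring
    · simp only [vec_two]; ring
  rw [h]
  exact contDiff_hF _ _ _ _ _ _ _

theorem fderiv_hF (p a l s e : ℝ) (hp : p ≠ 0) (hs : s ≠ 0) (y : V 3) :
    fderiv ℝ (hF p a l s e hp hs) y = linF p s := by
  rw [hF_eq]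
  rw [fderiv_add_const]
  exact (linF p s).fderiv

theorem contDiff_hE (p a : ℝ) (hp : p ≠ 0) : ContDiff ℝ ∞ (hE p a hp) := by
  have : (hE p a hp : V 1 → V 1) = fun x => p • x + !₂[a] := rfl
  rw [this]
  fun_prop

theorem contDiff_hE_symm (p a : ℝ) (hp : p ≠ 0) : ContDiff ℝ ∞ (hE p a hp).symm := by
  have : ((hE p a hp).symm : V 1 → V 1) = fun x => p⁻¹ • (x - !₂[a]) := rfl
  rw [this]
  fun_prop

theorem fderiv_hE (p a : ℝ) (hp : p ≠ 0) (x v : V 1) : fderiv ℝ (hE p a hp) x v = p • v := by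
  have : (hE p a hp : V 1 → V 1) = fun x => p • x + !₂[a] := rfl
  have h2 : HasFDerivAt (fun x : V 1 => p • x + !₂[a]) (p • ContinuousLinearMap.id ℝ (V 1)) x :=
    ((hasFDerivAt_id x).const_smul p).add_const _
  rw [this, h2.fderiv]
  rfl

theorem sim_hE (p a : ℝ) (hp : p ≠ 0) : (euclid 1).IsSimilarity p (hE p a hp) := by
  refine ⟨contDiff_hE _ _ _, contDiff_hE_symm _ _ _, fun x v w => ?_⟩
  unfold dmap
  rw [fderiv_hE, fderiv_hE]
  change inner ℝ (p • v) (p • w) = p ^ 2 * inner ℝ v w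
  rw [real_inner_smul_left, real_inner_smul_right]
  ring

theorem sim_el_snd (k a b e : ℤ) (s : ℤˣ) : hN.IsSimilarity (μ ^ k) (el k a b e s).2 := by
  have h1 : (el k a b e s).2 = hF (μ ^ (-k)) (zc a b) (k * log μ) (s : ℤ) e
    (zpow_pos μ_pos _).ne' (sg_ne s) := rfl
  rw [h1]
  refine ⟨contDiff_hF _ _ _ _ _ (zpow_pos μ_pos _).ne' (sg_ne s),
    contDiff_hF_symm _ _ _ _ _ (zpow_pos μ_pos _).ne' (sg_ne s), fun x v w => ?_⟩
  unfold dmap
  rw [fderiv_hF, linF_apply, linF_apply, hF_apply]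
  have : hN.g = gN := rfl
  rw [this, gN_apply, gN_apply]
  simp only [vec_zero, vec_one, vec_two]
  have e1 : exp (k * log μ) = μ ^ k := by
    rw [mul_comm, exp_mul, exp_log μ_pos, rpow_intCast]
  have e4 : exp (4 * (x 1 + k * log μ)) = exp (4 * x 1) * (μ ^ k) ^ 4 := by
    rw [← e1, mul_add, exp_add, ← exp_nat_mul]
    norm_num
  have e2 : exp (2 * (x 1 + k * log μ)) = exp (2 * x 1) * (μ ^ k) ^ 2 := by
    rw [← e1, mul_add, exp_add, ← exp_nat_mul]
    norm_num
  rw [e4, e2, zpow_neg]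
  have hne := (zpow_pos μ_pos k).ne'
  have hs := sg_sq s
  generalize exp (2 * x 1) = E2
  generalize exp (4 * x 1) = E4
  generalize μ ^ k = M at *
  field_simp
  linear_combination (E2 * v 2 * w 2) * hs

end Pool.Agent.R768.LCP
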